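import Pool.Agent.H25.IdealAnti

set_option autoImplicit false

namespace Pool.Agent.Results.MP_88803c_co.Bound

open Pool.Agent.H25.IdealDefs

universe u

/-- If `P` has no antichain of size `μ` then `I(P)` has no antichain of size `(2 ^ kap μ)⁺`. -/
theorem result (μ : Cardinal.{u}) (P : Type u) [PartialOrder P] (h : NoAntichain P μ) :
    NoAntichain (Ideals P) (Order.succ (2 ^ kap μ)) :=
  Pool.Agent.H25.IdealAnti.main h (Pool.Agent.H25.IdealAnti.kap_spec μ).1
    (Pool.Agent.H25.IdealAnti.kap_spec μ).2.1 (Pool.Agent.H25.IdealAnti.kap_spec μ).2.2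

end Pool.Agent.Results.MP_88803c_co.Bound
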